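import Pool.Agent.helper38.VA.Spec

set_option autoImplicit false

namespace Pool.Agent.VA

open Matrix Module Pool.Agent.PR Pool.Agent.H48SL

/-- rational valued polynomial functions -/
def KGN_QP {n : ℕ} (F : SLZ n → ℚ) : Prop :=
  ∃ (N : ℤ) (G : SLZ n → ℤ), N ≠ 0 ∧ IsPoly G ∧ ∀ g, (N : ℚ) * F g = G g

theorem KGN_const {n : ℕ} (c : ℚ) : KGN_QP (fun _ : SLZ n => c) := by
  refine ⟨c.den, fun _ => c.num, ?_, H48SL.IsPoly.const _, fun g => ?_⟩
  · exact_mod_cast c.den_ne_zero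
  · rw [mul_comm]
    exact_mod_cast Rat.mul_den_eq_num c

theorem KGN_add {n : ℕ} {F F' : SLZ n → ℚ} (h : KGN_QP F) (h' : KGN_QP F') : KGN_QP (fun g => F g + F' g) := by
  obtain ⟨N, G, hN, hG, e⟩ := h
  obtain ⟨N', G', hN', hG', e'⟩ := h'
  refine ⟨N * N', fun g => N' * G g + N * G' g, mul_ne_zero hN hN', (hG.smul N').add (hG'.smul N), fun g => ?_⟩
  push_cast
  rw [← e, ← e']
  ring

theorem KGN_mul {n : ℕ} {F F' : SLZ n → ℚ} (h : KGN_QP F) (h' : KGN_QP F') : KGN_QP (fun g => F g * F' g) := by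
  obtain ⟨N, G, hN, hG, e⟩ := h
  obtain ⟨N', G', hN', hG', e'⟩ := h'
  refine ⟨N * N', fun g => G g * G' g, mul_ne_zero hN hN', hG.mul hG', fun g => ?_⟩
  push_cast
  rw [← e, ← e']
  ring

theorem KGN_neg {n : ℕ} {F : SLZ n → ℚ} (h : KGN_QP F) : KGN_QP (fun g => - F g) := by
  have := KGN_mul (KGN_const (-1)) h
  simpa using this

theorem KGN_sum {n : ℕ} {κ : Type} (s : Finset κ) (F : κ → SLZ n → ℚ) (h : ∀ k ∈ s, KGN_QP (F k)) :
    KGN_QP (fun g => ∑ k ∈ s, F k g) := by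
  classical
  induction s using Finset.induction_on with
  | empty => simpa using KGN_const (n := n) 0
  | insert a s ha ih =>
    have h1 := KGN_add (h a (Finset.mem_insert_self a s)) (ih fun k hk => h k (Finset.mem_insert_of_mem hk))
    simpa [Finset.sum_insert ha] using h1

theorem KGN_cq_mul {a b c : ℕ} (A : Matrix (Fin a) (Fin b) ℤ) (B : Matrix (Fin b) (Fin c) ℤ) :
    cq (A * B) = cq A * cq B := by
  unfold cq
  rw [Matrix.map_mul]

theorem KGN_cq_inj {a b : ℕ} (A B : Matrix (Fin a) (Fin b) ℤ) (h : cq A = cq B) : A = B := by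
  ext i j
  have := congrFun (congrFun h i) j
  unfold cq at this
  simp only [Matrix.map_apply, eq_intCast, Int.cast_inj] at this
  exact this

theorem KGN_Cb {n : ℕ} (R : Matrix (Fin 2) (Fin n) ℤ) (S : Matrix (Fin n) (Fin 2) ℤ) (g : SLZ n) :
    Cb R S g = cq (R * (g : Matrix (Fin n) (Fin n) ℤ) * S) := by
  rw [KGN_cq_mul, KGN_cq_mul]
  rfl

theorem KGN_ent {n : ℕ} (R : Matrix (Fin 2) (Fin n) ℤ) (S : Matrix (Fin n) (Fin 2) ℤ) (i j : Fin 2) :
    KGN_QP (fun g => Cb R S g i j) := by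
  refine ⟨1, fun g => (R * (g : Matrix (Fin n) (Fin n) ℤ) * S) i j, one_ne_zero, ?_, fun g => ?_⟩
  · simp only [Matrix.mul_apply]
    refine H48SL.IsPoly.sum _ _ fun k _ => H48SL.IsPoly.mul (H48SL.IsPoly.sum _ _ fun l _ => ?_) (H48SL.IsPoly.const _)
    exact (H48SL.IsPoly.const _).mul (H48SL.IsPoly.entry l k)
  · have e := congrFun (congrFun (KGN_Cb R S g) i) j
    beta_reduce
    rw [Int.cast_one, one_mul]
    refine e.trans ?_
    simp [cq]

theorem KGN_ent_inv {n : ℕ} (R : Matrix (Fin 2) (Fin n) ℤ) (S : Matrix (Fin n) (Fin 2) ℤ) (i j : Fin 2) :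
    KGN_QP (fun g => Cb R S g⁻¹ i j) := by
  refine ⟨1, fun g => (R * ((g⁻¹ : SLZ n) : Matrix (Fin n) (Fin n) ℤ) * S) i j, one_ne_zero, ?_, fun g => ?_⟩
  · simp only [Matrix.mul_apply]
    refine H48SL.IsPoly.sum _ _ fun k _ => H48SL.IsPoly.mul (H48SL.IsPoly.sum _ _ fun l _ => ?_) (H48SL.IsPoly.const _)
    exact (H48SL.IsPoly.const _).mul (H48SL.IsPoly.entry_inv l k)
  · have e := congrFun (congrFun (KGN_Cb R S g⁻¹) i) j
    beta_reduce
    rw [Int.cast_one, one_mul]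
    refine e.trans ?_
    simp [cq]

theorem KGN_det {n : ℕ} (A : SLZ n → M2) (h : ∀ i j, KGN_QP (fun g => A g i j)) :
    KGN_QP (fun g => (A g).det) := by
  simp only [Matrix.det_fin_two]
  have := KGN_add (KGN_mul (h 0 0) (h 1 1)) (KGN_neg (KGN_mul (h 0 1) (h 1 0)))
  simpa [sub_eq_add_neg] using this

theorem KGN_adj {n : ℕ} (A : SLZ n → M2) (h : ∀ i j, KGN_QP (fun g => A g i j)) (i j : Fin 2) :
    KGN_QP (fun g => adjugate (A g) i j) := by
  simp only [Matrix.adjugate_fin_two]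
  fin_cases i <;> fin_cases j
  · simpa using h 1 1
  · simpa using KGN_neg (h 0 1)
  · simpa using KGN_neg (h 1 0)
  · simpa using h 0 0

theorem KGN_lin (ψ : M2 →ₗ[ℚ] ℚ) (M : M2) :
    ψ M = ∑ i, ∑ j, M i j * ψ (Matrix.single i j 1) := by
  conv_lhs => rw [Matrix.matrix_eq_sum_single M]
  rw [map_sum]
  refine Finset.sum_congr rfl fun i _ => ?_
  rw [map_sum]
  refine Finset.sum_congr rfl fun j _ => ?_
  have : Matrix.single i j (M i j) = M i j • Matrix.single i j (1 : ℚ) := by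
    rw [Matrix.smul_single, smul_eq_mul, mul_one]
  rw [this, map_smul, smul_eq_mul]

theorem KGN_psi {n : ℕ} (ψ : M2 →ₗ[ℚ] ℚ) (z : M2) (A B : SLZ n → M2) (hA : ∀ i j, KGN_QP (fun g => A g i j))
    (hB : ∀ i j, KGN_QP (fun g => B g i j)) : KGN_QP (fun g => ψ (A g * z * B g)) := by
  have : (fun g => ψ (A g * z * B g)) = fun g => ∑ i, ∑ j, (∑ k, (∑ l, A g i l * z l k) * B g k j) *
      ψ (Matrix.single i j 1) := by
    funext g
    rw [KGN_lin]
    simp only [Matrix.mul_apply]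
  rw [this]
  refine KGN_sum _ _ fun i _ => KGN_sum _ _ fun j _ => KGN_mul (KGN_sum _ _ fun k _ =>
    KGN_mul (KGN_sum _ _ fun l _ => KGN_mul (hA i l) (KGN_const _)) (hB k j)) (KGN_const _)

theorem KGN_NZ {n : ℕ} {F : SLZ n → ℚ} (h : KGN_QP F) (h' : ∃ g, F g ≠ 0) :
    ∃ G : SLZ n → ℤ, NZ G ∧ ∀ g, G g ≠ 0 → F g ≠ 0 := by
  obtain ⟨N, G, hN, hG, e⟩ := h
  obtain ⟨g, hg⟩ := h'
  refine ⟨G, ⟨hG, g, ?_⟩, ?_⟩
  · intro h0
    have := e g
    rw [h0, Int.cast_zero, mul_eq_zero] at this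
    rcases this with h1 | h1
    · exact hN (by exact_mod_cast h1)
    · exact hg h1
  · intro g h1 h2
    have := e g
    rw [h2, mul_zero] at this
    exact h1 (by exact_mod_cast this.symm)

theorem KGN_den {a b : ℕ} (X : Matrix (Fin a) (Fin b) ℚ) :
    ∃ (N : ℤ) (A : Matrix (Fin a) (Fin b) ℤ), N ≠ 0 ∧ (N : ℚ) • X = cq A := by
  let D : ℕ := ∏ p : Fin a × Fin b, (X p.1 p.2).den
  have hD : D ≠ 0 := Finset.prod_ne_zero_iff.2 fun p _ => (X p.1 p.2).den_ne_zero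
  have h1 : ∀ i j, ∃ z : ℤ, (D : ℚ) * X i j = z := by
    intro i j
    have hd : (X i j).den ∣ D := Finset.dvd_prod_of_mem (fun p : Fin a × Fin b => (X p.1 p.2).den)
      (Finset.mem_univ (i, j))
    obtain ⟨m, hm⟩ := hd
    refine ⟨m * (X i j).num, ?_⟩
    rw [hm]
    push_cast
    have := Rat.mul_den_eq_num (X i j)
    rw [← this]
    ring
  choose A hA using h1
  refine ⟨D, A, by exact_mod_cast hD, ?_⟩
  ext i j
  rw [Matrix.smul_apply, smul_eq_mul]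
  have := hA i j
  unfold cq
  rw [Matrix.map_apply]
  push_cast
  exact this

theorem KGN_spe {n : ℕ} (R : Matrix (Fin 2) (Fin n) ℤ) (S : Matrix (Fin n) (Fin 2) ℤ)
    (R' : Matrix (Fin n) (Fin 2) ℚ) (S' : Matrix (Fin 2) (Fin n) ℚ) (hRS : R * S = 0) (hR : cq R * R' = 1)
    (hS : S' * cq S = 1) (c : M2) :
    ∃ (g : SLZ n) (N : ℚ), N ≠ 0 ∧ Cb R S g = N • c ∧ Cb R S g⁻¹ = (-N) • c := by
  have hRS' : cq R * cq S = 0 := by
    rw [← KGN_cq_mul, hRS]
    ext i j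
    simp [cq]
  obtain ⟨S1, hS1⟩ : ∃ S1, S1 = S' - S' * R' * cq R := ⟨_, rfl⟩
  have h1 : S1 * cq S = 1 := by
    rw [hS1, Matrix.sub_mul, hS, Matrix.mul_assoc, hRS', Matrix.mul_zero, sub_zero]
  have h2 : S1 * R' = 0 := by
    rw [hS1, Matrix.sub_mul, Matrix.mul_assoc (S' * R'), hR, Matrix.mul_one, sub_self]
  obtain ⟨N, A, hN, hA⟩ := KGN_den (R' * c * S1)
  have hAA : cq A * cq A = 0 := by
    rw [← hA, Matrix.smul_mul, Matrix.mul_smul]
    have : R' * c * S1 * (R' * c * S1) = R' * c * (S1 * R') * (c * S1) := by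
      simp only [Matrix.mul_assoc]
    rw [this, h2]
    simp
  have hcq1 : cq (1 + A) = 1 + cq A := by
    unfold cq
    ext i j
    simp [Matrix.one_apply]
  have hdet : (1 + A).det = 1 := by
    have e1 : (((1 + A).det : ℤ) : ℚ) = 1 := by
      have e2 := (Int.castRingHom ℚ).map_det (1 + A)
      rw [eq_intCast] at e2
      rw [e2]
      change (cq (1 + A)).det = 1
      rw [hcq1, ← hA, ← Matrix.smul_mul, Matrix.det_one_add_mul_comm, Matrix.mul_smul,
        ← Matrix.mul_assoc, h2]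
      simp
    exact_mod_cast e1
  let g : SLZ n := ⟨1 + A, hdet⟩
  have hg : stdM ℚ g = 1 + cq A := by
    rw [stdM_eq_cq]
    exact hcq1
  have hgi : stdM ℚ g⁻¹ = 1 - cq A := by
    have e1 : (1 + cq A) * (1 - cq A) = 1 := by
      rw [Matrix.add_mul, Matrix.one_mul, Matrix.mul_sub, Matrix.mul_one, hAA]
      simp
    have e2 := stdM_inv_mul ℚ g
    rw [hg] at e2
    calc stdM ℚ g⁻¹ = stdM ℚ g⁻¹ * ((1 + cq A) * (1 - cq A)) := by rw [e1, Matrix.mul_one]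
      _ = 1 - cq A := by rw [← Matrix.mul_assoc, e2, Matrix.one_mul]
  have hRAS : cq R * cq A * cq S = (N : ℚ) • c := by
    rw [← hA, Matrix.mul_smul, Matrix.smul_mul]
    congr 1
    calc cq R * (R' * c * S1) * cq S = (cq R * R') * c * (S1 * cq S) := by simp only [Matrix.mul_assoc]
      _ = c := by rw [hR, h1, Matrix.one_mul, Matrix.mul_one]
  refine ⟨g, N, by exact_mod_cast hN, ?_, ?_⟩
  · unfold Cb
    rw [hg, Matrix.mul_add, Matrix.mul_one, Matrix.add_mul, hRS', zero_add, hRAS]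
  · unfold Cb
    rw [hgi, Matrix.mul_sub, Matrix.mul_one, Matrix.sub_mul, hRS', zero_sub, hRAS, neg_smul]

theorem KGN_adj_smul (N : ℚ) (a : M2) : adjugate (N • adjugate a) = N • a := by
  rw [Matrix.adjugate_smul]
  simp only [Matrix.adjugate_fin_two, Fintype.card_fin]
  ext i j
  fin_cases i <;> fin_cases j <;> simp

theorem KGN_exa (z zi : M2) (h1 : z * zi = 1) (h2 : zi * z = 1) (W : Submodule ℚ M2) (hW : W ≠ ⊤) :
    ∃ a : M2, a * z * a ∉ W := by
  by_contra hcon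
  push Not at hcon
  apply hW
  rw [Submodule.eq_top_iff']
  intro a
  have e1 := hcon (a + zi)
  have e2 := hcon a
  have e3 := hcon zi
  have e4 : (a + zi) * z * (a + zi) - a * z * a - zi * z * zi = (2 : ℚ) • a := by
    have : (a + zi) * z * (a + zi) = a * z * a + a * (z * zi) + (zi * z) * a + zi * z * zi := by
      noncomm_ring
    rw [this, h1, h2, mul_one, one_mul, two_smul]
    abel
  have e5 : (2 : ℚ) • a ∈ W := by
    rw [← e4]
    exact W.sub_mem (W.sub_mem e1 e2) e3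
  have e6 := W.smul_mem (2⁻¹ : ℚ) e5
  rwa [smul_smul, inv_mul_cancel₀ (by norm_num), one_smul] at e6

theorem KGN : KGN_stmt := by
  intro n H hH R S R' S' hRS hR hS W hW hy
  obtain ⟨y, hyW, hyd⟩ := hy
  have hz1 : adjugate y * ((y.det)⁻¹ • y) = 1 := by
    rw [Matrix.mul_smul, Matrix.adjugate_mul, smul_smul, inv_mul_cancel₀ hyd, one_smul]
  have hz2 : ((y.det)⁻¹ • y) * adjugate y = 1 := by
    rw [Matrix.smul_mul, Matrix.mul_adjugate, smul_smul, inv_mul_cancel₀ hyd, one_smul]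
  obtain ⟨a, ha⟩ := KGN_exa (adjugate y) _ hz1 hz2 W hW
  obtain ⟨ψ, hψ1, hψ2⟩ := Submodule.exists_dual_map_eq_bot_of_notMem ha inferInstance
  have hψW : ∀ x ∈ W, ψ x = 0 := by
    intro x hx
    have : ψ x ∈ W.map ψ := Submodule.mem_map_of_mem hx
    rw [hψ2] at this
    exact this
  obtain ⟨G1, hG1, hG1'⟩ := KGN_NZ (KGN_det _ (KGN_ent R S)) (by
    obtain ⟨g, N, hN, e1, e2⟩ := KGN_spe R S R' S' hRS hR hS 1
    refine ⟨g, ?_⟩
    rw [e1, Matrix.det_smul, Matrix.det_one, mul_one]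
    exact pow_ne_zero _ hN)
  obtain ⟨G2, hG2, hG2'⟩ := KGN_NZ (KGN_det _ (KGN_ent_inv R S)) (by
    obtain ⟨g, N, hN, e1, e2⟩ := KGN_spe R S R' S' hRS hR hS 1
    refine ⟨g, ?_⟩
    rw [e2, Matrix.det_smul, Matrix.det_one, mul_one]
    exact pow_ne_zero _ (neg_ne_zero.2 hN))
  obtain ⟨G3, hG3, hG3'⟩ := KGN_NZ (KGN_psi ψ (adjugate y) _ _ (KGN_adj _ (KGN_ent R S))
    (KGN_adj _ (KGN_ent_inv R S))) (by
    obtain ⟨g, N, hN, e1, e2⟩ := KGN_spe R S R' S' hRS hR hS (adjugate a)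
    refine ⟨g, ?_⟩
    rw [e1, e2, KGN_adj_smul, KGN_adj_smul, Matrix.smul_mul, Matrix.smul_mul, Matrix.mul_smul,
      map_smul, map_smul, smul_eq_mul, smul_eq_mul]
    exact mul_ne_zero hN (mul_ne_zero (neg_ne_zero.2 hN) hψ1))
  obtain ⟨g, hg, hne⟩ := ((hG1.mul hG2).mul hG3).dense hH
  have n3 := right_ne_zero_of_mul hne
  have n1 := left_ne_zero_of_mul (left_ne_zero_of_mul hne)
  have n2 := right_ne_zero_of_mul (left_ne_zero_of_mul hne)
  refine ⟨g, hg, hG1' g n1, hG2' g n2, y, hyW, ?_⟩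
  intro hmem
  exact hG3' g n3 (hψW _ hmem)

end Pool.Agent.VA
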